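import Mathlib
import Pool.Agent.H42.OmB

open Pool.Agent.H42.OmB

/-- Under `p > ω₁`, some non-metrizable compact abelian group has all of its dense countably
compact subgroups projectively `w`-compact. -/
theorem Pool.Agent.Results.MP_6b4821_lc.Cons.result (h : PBig) :
    ∃ (G : Type) (_ : AddCommGroup G) (_ : TopologicalSpace G),
      IsTopologicalAddGroup G ∧ CompactSpace G ∧ T2Space G ∧
      ¬ TopologicalSpace.MetrizableSpace G ∧
      ∀ D : AddSubgroup G, Dense (D : Set G) → CountablyCompactSpace D → ProjWCompact D :=
  ⟨Pool.Agent.H42.Dirac.W → ZMod 2, inferInstance, inferInstance, inferInstance, inferInstance,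
    inferInstance, nmet,
    fun D hd hD => pw h D hd (isCountablyCompact_iff_countablyCompactSpace.2 hD)⟩
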